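import Pool.Agent.H48.FR.Targets

/-!
Module RZ of fir_modules: the distance between a point of maximum and a point of minimum of a
homogeneous polynomial in cosine and sine (M. Riesz).
-/

namespace Pool.Agent.H69.FR

noncomputable section

open Pool.Agent.H48.FR Finset

theorem tp_mul_cos (N : ℕ) (a : ℕ → ℝ) (θ : ℝ) :
    tp N a θ * Real.cos θ = tp (N + 1) (fun k => if k ≤ N then a k else 0) θ := by
  unfold tp
  rw [sum_range_succ (n := N + 1), sum_mul]
  have h1 : (fun k => if k ≤ N then a k else 0) (N + 1) = 0 := by simp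
  rw [h1, zero_mul, add_zero]
  apply sum_congr rfl
  intro k hk
  rw [mem_range] at hk
  have h2 : k ≤ N := by omega
  have h3 : N + 1 - k = (N - k) + 1 := by omega
  simp only [h2, if_true]
  rw [h3, pow_succ]
  ring

theorem tp_mul_sin (N : ℕ) (a : ℕ → ℝ) (θ : ℝ) :
    tp N a θ * Real.sin θ = tp (N + 1) (fun k => if k = 0 then 0 else a (k - 1)) θ := by
  unfold tp
  rw [sum_range_succ' (n := N + 1), sum_mul]
  simp only [if_true, zero_mul, add_zero]
  apply sum_congr rfl
  intro k hk
  rw [mem_range] at hk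
  have h3 : N + 1 - (k + 1) = N - k := by omega
  simp only [Nat.add_eq_zero_iff, one_ne_zero, and_false, if_false, Nat.add_sub_cancel]
  rw [h3, pow_succ]
  ring

theorem tp_lin (N : ℕ) (a b : ℕ → ℝ) (x y θ : ℝ) :
    x * tp N a θ + y * tp N b θ = tp N (fun k => x * a k + y * b k) θ := by
  unfold tp
  rw [mul_sum, mul_sum, ← sum_add_distrib]
  apply sum_congr rfl
  intro k _
  ring

theorem cos_sin_tp (N : ℕ) : ∃ a b : ℕ → ℝ, ∀ θ : ℝ,
    Real.cos (N * θ) = tp N a θ ∧ Real.sin (N * θ) = tp N b θ := by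
  induction N with
  | zero =>
    refine ⟨fun _ => 1, fun _ => 0, fun θ => ?_⟩
    simp [tp]
  | succ N ih =>
    obtain ⟨a, b, h⟩ := ih
    refine ⟨fun k => 1 * (if k ≤ N then a k else 0) + (-1) * (if k = 0 then 0 else b (k - 1)),
      fun k => 1 * (if k ≤ N then b k else 0) + 1 * (if k = 0 then 0 else a (k - 1)),
      fun θ => ⟨?_, ?_⟩⟩
    · rw [← tp_lin (N + 1) (fun k => if k ≤ N then a k else 0)
        (fun k => if k = 0 then 0 else b (k - 1)), ← tp_mul_cos, ← tp_mul_sin, ← (h θ).1,
        ← (h θ).2]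
      have : ((N + 1 : ℕ) : ℝ) * θ = N * θ + θ := by push_cast; ring
      rw [this, Real.cos_add]
      ring
    · rw [← tp_lin (N + 1) (fun k => if k ≤ N then b k else 0)
        (fun k => if k = 0 then 0 else a (k - 1)), ← tp_mul_cos, ← tp_mul_sin, ← (h θ).1,
        ← (h θ).2]
      have : ((N + 1 : ℕ) : ℝ) * θ = N * θ + θ := by push_cast; ring
      rw [this, Real.sin_add]
      ring

/-- a homogeneous polynomial with many zeros on an interval of length `π` vanishes -/
theorem tp_zero (N : ℕ) (c : ℕ → ℝ) (δ : ℝ) (Z : Finset ℝ) (hZ : N + 2 ≤ Z.card)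
    (hI : ∀ z ∈ Z, δ < z ∧ z < δ + Real.pi) (h0 : ∀ z ∈ Z, tp N c z = 0) (θ : ℝ) :
    tp N c θ = 0 := by
  -- points whose difference has sine zero coincide
  have hsin : ∀ z ∈ Z, ∀ w ∈ Z, Real.sin (z - w) = 0 → z = w := by
    intro z hz w hw h
    have h1 := hI z hz
    have h2 := hI w hw
    have h3 := (Real.sin_eq_zero_iff_of_lt_of_lt (x := z - w) (by linarith) (by linarith)).mp h
    linarith
  set Z' := Z.filter (fun z => Real.cos z ≠ 0) with hZ'
  have hcard : N + 1 ≤ Z'.card := by
    have h1 : (Z.filter (fun z => ¬ Real.cos z ≠ 0)).card ≤ 1 := by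
      rw [card_le_one]
      intro z hz w hw
      rw [mem_filter, not_not] at hz hw
      apply hsin z hz.1 w hw.1
      rw [Real.sin_sub, hz.2, hw.2]
      ring
    have h2 := card_filter_add_card_filter_not (s := Z) (fun z => Real.cos z ≠ 0)
    rw [← hZ'] at h2
    omega
  set P : Polynomial ℝ := ∑ k ∈ range (N + 1), Polynomial.C (c k) * Polynomial.X ^ k with hP
  have heval : ∀ z ∈ Z', P.eval (Real.tan z) = 0 := by
    intro z hz
    rw [hZ', mem_filter] at hz
    have h1 := h0 z hz.1
    have h2 : tp N c z = Real.cos z ^ N * P.eval (Real.tan z) := by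
      rw [hP, Polynomial.eval_finsetSum, mul_sum]
      unfold tp
      apply sum_congr rfl
      intro k hk
      rw [mem_range] at hk
      rw [Polynomial.eval_mul, Polynomial.eval_C, Polynomial.eval_pow, Polynomial.eval_X]
      have h3 : Real.cos z ^ N = Real.cos z ^ (N - k) * Real.cos z ^ k := by
        rw [← pow_add]; congr 1; omega
      rw [h3]
      have h4 : Real.cos z ^ k * Real.tan z ^ k = Real.sin z ^ k := by
        rw [← mul_pow, mul_comm, Real.tan_mul_cos hz.2]
      calc c k * (Real.cos z ^ (N - k) * Real.sin z ^ k)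
          = c k * (Real.cos z ^ (N - k) * (Real.cos z ^ k * Real.tan z ^ k)) := by rw [h4]
        _ = _ := by ring
    rw [h2] at h1
    rcases mul_eq_zero.mp h1 with h3 | h3
    · exact absurd h3 (pow_ne_zero _ hz.2)
    · exact h3
  have hdeg : P.natDegree < (Z'.image Real.tan).card := by
    have h1 : (Z'.image Real.tan).card = Z'.card := by
      apply card_image_of_injOn
      intro z hz w hw hzw
      rw [mem_coe, hZ', mem_filter] at hz hw
      apply hsin z hz.1 w hw.1
      have h2 : Real.tan z = Real.tan w := hzw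
      rw [Real.tan_eq_sin_div_cos, Real.tan_eq_sin_div_cos, div_eq_div_iff hz.2 hw.2] at h2
      rw [Real.sin_sub]
      linarith
    rw [h1]
    have h3 : P.natDegree ≤ N := by
      rw [hP]
      apply Polynomial.natDegree_sum_le_of_forall_le
      intro k hk
      rw [mem_range] at hk
      exact (Polynomial.natDegree_C_mul_X_pow_le _ _).trans (by omega)
    omega
  have hP0 : P = 0 := by
    apply Polynomial.eq_zero_of_natDegree_lt_card_of_eval_eq_zero' P (Z'.image Real.tan) _ hdeg
    intro i hi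
    rw [mem_image] at hi
    obtain ⟨z, hz, rfl⟩ := hi
    exact heval z hz
  have hc : ∀ k ∈ range (N + 1), c k = 0 := by
    intro k hk
    have h1 : P.coeff k = c k := by
      rw [hP, Polynomial.finsetSum_coeff]
      simp only [Polynomial.coeff_C_mul_X_pow]
      rw [sum_ite_eq, if_pos hk]
    rw [← h1, hP0, Polynomial.coeff_zero]
  unfold tp
  exact sum_eq_zero (fun k hk => by rw [hc k hk, zero_mul])

theorem rz : T_RZ := by
  intro N c M γ hN hM hb h0 hγ0 hγ hcon
  have hNr : (1 : ℝ) ≤ N := by exact_mod_cast hN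
  have hN0 : (0 : ℝ) < N := by linarith
  have hπ := Real.pi_pos
  have hNγ : N * γ < Real.pi := by
    rw [lt_div_iff₀ hN0] at hγ
    linarith
  set δ : ℝ := (γ - Real.pi / N) / 2 with hδ
  have hNδ : N * δ = (N * γ - Real.pi) / 2 := by
    rw [hδ]; field_simp
  have hδ0 : δ < 0 := by rw [hδ]; linarith
  set a : ℝ := Real.cos (N * δ) with ha
  set b : ℝ := Real.cos (N * (γ - δ)) with hb'
  have ha1 : a < 1 := by
    rw [ha, ← Real.cos_neg, ← Real.cos_zero]
    apply Real.cos_lt_cos_of_nonneg_of_le_pi le_rfl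
    · nlinarith
    · nlinarith
  have hb1 : -1 < b := by
    rw [hb', ← Real.cos_pi]
    have : N * (γ - δ) = (N * γ + Real.pi) / 2 := by
      rw [mul_sub, hNδ]; ring
    have h2 : 0 < N * γ := mul_pos hN0 hγ0
    apply Real.cos_lt_cos_of_nonneg_of_le_pi
    · rw [this]; linarith
    · exact le_rfl
    · rw [this]; linarith
  have ha2 : a ≤ 1 := Real.cos_le_one _
  have hb2 : -1 ≤ b := Real.neg_one_le_cos _
  set e : ℝ := min ((1 - a) / 2) ((1 + b) / 2) with he
  have he0 : 0 < e := lt_min (by linarith) (by linarith)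
  have he1 : e ≤ (1 - a) / 2 := min_le_left _ _
  have he2 : e ≤ (1 + b) / 2 := min_le_right _ _
  have hea : (1 + e) * a < 1 := by nlinarith
  have heb : -1 < (1 + e) * b := by nlinarith
  -- the difference
  set D : ℝ → ℝ := fun t => (1 + e) * M * Real.cos (N * (t - δ)) - tp N c t with hD
  obtain ⟨u, v, huv⟩ := cos_sin_tp N
  obtain ⟨c', hc'⟩ : ∃ c' : ℕ → ℝ, ∀ t, D t = tp N c' t := by
    refine ⟨fun k => 1 * (((1 + e) * M * Real.cos (N * δ)) * u k +
      ((1 + e) * M * Real.sin (N * δ)) * v k) + (-1) * c k, fun t => ?_⟩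
    rw [← tp_lin N (fun k => ((1 + e) * M * Real.cos (N * δ)) * u k +
      ((1 + e) * M * Real.sin (N * δ)) * v k) c, ← tp_lin, ← (huv t).1, ← (huv t).2, hD]
    simp only
    rw [mul_sub, Real.cos_sub]
    ring
  have hcont : Continuous D := by
    rw [hD]
    unfold tp
    fun_prop
  -- the points
  set x : ℕ → ℝ := fun j => if j = 0 then δ else if j = 1 then 0 else if j = 2 then γ else
    δ + (j - 2 : ℝ) * (Real.pi / N) with hx
  have hstep : 0 < Real.pi / N := div_pos hπ hN0
  have hxlt : ∀ j, x j < x (j + 1) := by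
    intro j
    rcases j with _ | _ | _ | j
    · simp [hx, hδ0]
    · simp [hx, hγ0]
    · simp only [hx]
      norm_num
      rw [hδ]
      linarith
    · simp only [hx]
      have h1 : j + 1 + 1 + 1 ≠ 0 := by omega
      have h2 : j + 1 + 1 + 1 ≠ 1 := by omega
      have h3 : j + 1 + 1 + 1 ≠ 2 := by omega
      have h4 : j + 1 + 1 + 1 + 1 ≠ 0 := by omega
      have h5 : j + 1 + 1 + 1 + 1 ≠ 1 := by omega
      have h6 : j + 1 + 1 + 1 + 1 ≠ 2 := by omega
      simp only [h1, h2, h3, h4, h5, h6, if_false]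
      push_cast
      nlinarith
  have hxmono : StrictMono x := strictMono_nat_of_lt_succ hxlt
  have hgb : ∀ t, -M ≤ tp N c t ∧ tp N c t ≤ M := fun t => abs_le.mp (hb t)
  have hsign : ∀ j, 0 < (-1 : ℝ) ^ j * D (x j) := by
    intro j
    rcases j with _ | _ | _ | j
    · simp only [hx, if_true, hD, pow_zero, one_mul, sub_self, mul_zero, Real.cos_zero, mul_one]
      have := (hgb δ).2
      nlinarith
    · have h1 : x 1 = 0 := by simp [hx]
      rw [h1]
      simp only [hD]
      have h2 : (N : ℝ) * (0 - δ) = -(N * δ) := by ring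
      rw [h2, Real.cos_neg, ← ha, h0]
      have h3 : (1 + e) * M * a < M := by nlinarith
      norm_num
      linarith
    · have h1 : x 2 = γ := by simp [hx]
      rw [h1]
      simp only [hD]
      rw [← hb', hcon]
      have h3 : -M < (1 + e) * M * b := by nlinarith
      norm_num
      linarith
    · have h1 : x (j + 1 + 1 + 1) = δ + (j + 1 : ℝ) * (Real.pi / N) := by
        simp only [hx]
        have h1 : j + 1 + 1 + 1 ≠ 0 := by omega
        have h2 : j + 1 + 1 + 1 ≠ 1 := by omega
        have h3 : j + 1 + 1 + 1 ≠ 2 := by omega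
        simp only [h1, h2, h3, if_false]
        push_cast
        ring
      rw [h1]
      simp only [hD]
      have h2 : (N : ℝ) * (δ + (j + 1 : ℝ) * (Real.pi / N) - δ) = ((j + 1 : ℕ) : ℝ) * Real.pi := by
        push_cast
        field_simp
        ring
      rw [h2, Real.cos_nat_mul_pi]
      have h3 : (-1 : ℝ) ^ (j + 1 + 1 + 1) = (-1) ^ (j + 1) := by
        rw [pow_add, pow_add]; norm_num
      have h3' : (-1 : ℝ) ^ (j + 1 + 1 + 1) = (-1) ^ (j + 1) := by
        rw [show j + 1 + 1 + 1 = (j + 1) + 2 by ring, pow_add]; norm_num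
      rw [h3']
      have h4 := hgb (δ + (j + 1 : ℝ) * (Real.pi / N))
      rcases neg_one_pow_eq_or ℝ (j + 1) with h5 | h5
      · rw [h5]; nlinarith
      · rw [h5]; nlinarith
  have hzero : ∀ j, ∃ z, x j < z ∧ z < x (j + 1) ∧ D z = 0 := by
    intro j
    have h1 := hsign j
    have h2 := hsign (j + 1)
    have h3 : ContinuousOn (fun t => (-1 : ℝ) ^ j * D t) (Set.Icc (x j) (x (j + 1))) :=
      (continuous_const.mul hcont).continuousOn
    have h4 := intermediate_value_Ioo' (hxlt j).le h3
    have h5 : (0 : ℝ) ∈ Set.Ioo ((-1 : ℝ) ^ j * D (x (j + 1))) ((-1 : ℝ) ^ j * D (x j)) := by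
      refine ⟨?_, h1⟩
      rw [pow_succ] at h2
      linarith
    obtain ⟨z, hz, hz0⟩ := h4 h5
    refine ⟨z, hz.1, hz.2, ?_⟩
    simp only at hz0
    rcases mul_eq_zero.mp hz0 with h6 | h6
    · exact absurd h6 (pow_ne_zero _ (by norm_num))
    · exact h6
  choose z hz1 hz2 hz3 using hzero
  have hzmono : StrictMono z := by
    apply strictMono_nat_of_lt_succ
    intro j
    exact (hz2 j).trans (hz1 (j + 1))
  set Z := (range (N + 2)).image z with hZ
  have hZc : N + 2 ≤ Z.card := by
    rw [hZ, card_image_of_injective _ hzmono.injective, card_range]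
  have hlast : x (N + 2) = δ + Real.pi := by
    simp only [hx]
    rcases Nat.eq_zero_or_pos N with h | h
    · omega
    · have h1 : N + 2 ≠ 0 := by omega
      have h2 : N + 2 ≠ 1 := by omega
      have h3 : N + 2 ≠ 2 := by omega
      simp only [h1, h2, h3, if_false]
      push_cast
      field_simp
      ring
  have hI : ∀ w ∈ Z, δ < w ∧ w < δ + Real.pi := by
    intro w hw
    rw [hZ, mem_image] at hw
    obtain ⟨j, hj, rfl⟩ := hw
    rw [mem_range] at hj
    constructor
    · have h1 : x 0 ≤ x j := hxmono.monotone (Nat.zero_le j)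
      have h2 : x 0 = δ := by simp [hx]
      rw [h2] at h1
      exact h1.trans_lt (hz1 j)
    · have h1 : x (j + 1) ≤ x (N + 2) := hxmono.monotone (by omega)
      rw [hlast] at h1
      exact (hz2 j).trans_le h1
  have hall := tp_zero N c' δ Z hZc hI (by
    intro w hw
    rw [hZ, mem_image] at hw
    obtain ⟨j, -, rfl⟩ := hw
    rw [← hc']
    exact hz3 j) δ
  rw [← hc'] at hall
  have h1 := hsign 0
  have h2 : x 0 = δ := by simp [hx]
  rw [h2, hall] at h1
  simp at h1

end

end Pool.Agent.H69.FR
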